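import Pool.Agent.Helper60.TGX.Defs

/-!
# Project TGX (MP_a41896_nt): base change of endomorphisms
-/

set_option autoImplicit false

open Polynomial

namespace Pool.Agent.Helper92.TGX

open WeierstrassCurve
open Pool.Agent.Helper29.BL Pool.Agent.Helper42.SG
open Pool.Agent.Helper60.T3 (WL zd IP)
open Pool.Agent.Helper42.TG (Endo RAct)
open Pool.Agent.Helper92.TG (Dv mp)
open Pool.Agent.Helper60.TGX

noncomputable section

/-- the algebra structure of the tower -/
@[reducible] def alg (k k₁ F : Type) [Field k] [Field k₁] [Field F] [Algebra k k₁]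
    [Algebra k₁ F] : Algebra k F :=
  ((algebraMap k₁ F).comp (algebraMap k k₁)).toAlgebra

/-- an embedding over the smaller field -/
def rsa {k k₁ F F' : Type} [Field k] [Field k₁] [Field F] [Field F'] [Algebra k k₁]
    [Algebra k₁ F] [Algebra k₁ F'] (j : F →ₐ[k₁] F') :
    @AlgHom k F F' _ _ _ (alg k k₁ F) (alg k k₁ F') :=
  letI := alg k k₁ F
  letI := alg k k₁ F'
  { j.toRingHom with
    commutes' := fun r => j.commutes (algebraMap k k₁ r) }

theorem map_rsa {k k₁ F F' : Type} [Field k] [Field k₁] [Field F] [Field F'] [DecidableEq F]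
    [DecidableEq F'] [Algebra k k₁] [Algebra k₁ F] [Algebra k₁ F'] (W : Affine k)
    (j : F →ₐ[k₁] F') (P : (WL F (WL k₁ W)).Point) :
    letI := alg k k₁ F
    letI := alg k k₁ F'
    (Affine.Point.map (W' := W) (rsa (k := k) j) P : (WL F' W).Point) =
      (Affine.Point.map (W' := WL k₁ W) j P : (WL F' (WL k₁ W)).Point) := by
  cases P <;> rfl

/-- base change of an endomorphism -/
def ebc {k k₁ : Type} [Field k] [Field k₁] [Algebra k k₁] {W : Affine k} (ρ : Endo W) :
    Endo (WL k₁ W) where
  f F _ _ _ :=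
    letI := alg k k₁ F
    (ρ.f F : (WL F W).Point →+ (WL F W).Point)
  nat F F' _ _ _ _ _ _ j P :=
    letI := alg k k₁ F
    letI := alg k k₁ F'
    by
      have h := ρ.nat F F' (rsa (k := k) j) P
      have h1 := map_rsa W j P
      have h2 := map_rsa W j (ρ.f F P)
      exact ((congrArg (ρ.f F') h1).symm.trans h).trans h2

theorem th_ENBC : S_ENBC := by
  intro k k₁ _ _ _ W ρ r h
  refine ⟨ebc ρ, ?_⟩
  intro F _ _ _ D P
  letI := alg k k₁ F
  haveI : IsScalarTower k k₁ F := IsScalarTower.of_algebraMap_eq fun _ => rfl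
  exact h F (D.restrictScalars k) P

end

end Pool.Agent.Helper92.TGX
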