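import Pool.Agent.Helper60.TGX.Defs
import Pool.Agent.Helper92.TG.MainX

/-!
# Project TGX (MP_a41896_nt): the ring of all endomorphisms
-/

set_option autoImplicit false

open Polynomial

namespace Pool.Agent.Helper92.TGX

open WeierstrassCurve
open Pool.Agent.Helper29.BL Pool.Agent.Helper42.SG
open Pool.Agent.Helper60.T3 (WL zd IP)
open Pool.Agent.Helper42.TG (Endo RAct)
open Pool.Agent.Helper92.TG
open Pool.Agent.Helper60.TGX

noncomputable section

theorem exw (hRG : RGEN) (hDER : DER) (hDIF : DIF) (hZER : ZER) (hDEG : DEGX) (hRAT : RATA)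
    (hG : GPQ) : S_EXW := by
  intro K _ _ W hW
  have hcls := fun ρ : Endo W => cls hRG hDER hDIF hZER hDEG hRAT hW ρ
  refine ⟨fun ρ => (hcls ρ).imp fun _ h => h.1, ?_⟩
  have hzero : ∀ ρ : Endo W, Dv ρ 0 → ∀ (F : Type) [Field F] [DecidableEq F] [Algebra K F]
      (P : (WL F W).Point), ρ.f F P = 0 := by
    intro ρ h
    obtain ⟨r, h1, h2⟩ := hcls ρ
    have h3 := dv_unique hG hW h1 h
    rcases h2 with ⟨-, h2⟩ | ⟨h2, -⟩
    · exact h2
    · exact absurd h3 h2
  have hext : ∀ (ρ σ : Endo W) (r : K), Dv ρ r → Dv σ r → ∀ (F : Type) [Field F]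
      [DecidableEq F] [Algebra K F] (P : (WL F W).Point), ρ.f F P = σ.f F P := by
    intro ρ σ r h1 h2 F _ _ _ P
    have h3 := dv_add hW h1 (dv_neg hW h2)
    rw [add_neg_cancel] at h3
    have h4 := hzero _ h3 F P
    have h5 : ρ.f F P + -(σ.f F P) = 0 := h4
    exact add_neg_eq_zero.1 h5
  let R : Subring K :=
    { carrier := {r | ∃ ρ : Endo W, Dv ρ r}
      mul_mem' := by
        rintro a b ⟨ρ, h1⟩ ⟨σ, h2⟩
        exact ⟨ecomp ρ σ, dv_comp h1 h2⟩
      one_mem' := ⟨eone W, dv_one⟩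
      add_mem' := by
        rintro a b ⟨ρ, h1⟩ ⟨σ, h2⟩
        exact ⟨eadd ρ σ, dv_add hW h1 h2⟩
      zero_mem' := ⟨ezero W, dv_zero⟩
      neg_mem' := by
        rintro a ⟨ρ, h1⟩
        exact ⟨eneg ρ, dv_neg hW h1⟩ }
  have hR : ∀ r : R, ∃ ρ : Endo W, Dv ρ (r : K) := fun r => r.2
  choose ch hch using hR
  let ac : ∀ (F : Type) [Field F] [DecidableEq F] [Algebra K F],
      R →+* AddMonoid.End (WL F W).Point := fun F _ _ _ =>
    { toFun := fun r => (ch r).f F
      map_one' := by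
        ext P
        have h1 : Dv (ch 1) (1 : K) := hch 1
        exact hext _ _ 1 h1 dv_one F P
      map_mul' := by
        intro r s
        ext P
        have h1 : Dv (ch (r * s)) ((r : K) * (s : K)) := hch (r * s)
        exact hext _ _ _ h1 (dv_comp (hch r) (hch s)) F P
      map_zero' := by
        ext P
        have h1 : Dv (ch 0) (0 : K) := hch 0
        exact hext _ _ 0 h1 dv_zero F P
      map_add' := by
        intro r s
        ext P
        have h1 : Dv (ch (r + s)) ((r : K) + (s : K)) := hch (r + s)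
        exact hext _ _ _ h1 (dv_add hW (hch r) (hch s)) F P }
  refine ⟨R, ac, ⟨?_, ?_, ?_⟩, fun ρ r h => ⟨ρ, h⟩⟩
  · intro r F F' _ _ _ _ _ _ j P
    exact (ch r).nat F F' j P
  · intro r F _ _ _ D P
    exact hch r F D P
  · intro r hr
    obtain ⟨s, h1, h2⟩ := hcls (ch r)
    have h3 : s = (r : K) := dv_unique hG hW h1 (hch r)
    subst h3
    rcases h2 with ⟨h2, -⟩ | ⟨-, A, B, hAB, hdeg, hAF⟩
    · exact absurd (Subtype.ext h2) hr
    · exact ⟨A, B, hAB, hdeg, fun F _ _ _ P hP => hAF F P hP⟩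

/-- **EXW** -/
theorem th_EXW : S_EXW :=
  exw MainX.th_RGEN (Pool.Agent.Helper91.TG.DER.t MainX.th_GPQ)
    (Pool.Agent.Helper43.TG.DIF.t Pool.Agent.Helper45.TG.IPN.t)
    (Pool.Agent.Helper51.TG.ZER.t MainX.th_EXTS)
    (Pool.Agent.Helper57.TG.DEGX.t Pool.Agent.Helper13.TG.CONT.t MainX.th_EXTS)
    (Pool.Agent.Helper44.TG.RATA.t Pool.Agent.Helper13.TG.CONT.t MainX.th_EXTS) MainX.th_GPQ

end

end Pool.Agent.Helper92.TGX
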