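import Pool.Agent.Helper60.TGX.Defs
import Pool.Agent.Helper57.TG.DEGX
import Pool.Agent.Helper44.TG.RATA
import Pool.Agent.Helper92.TG.MainX

/-!
# Project TGX (MP_a41896_nt): the formula at all points
-/

set_option autoImplicit false

open Polynomial

namespace Pool.Agent.Helper92.TGX

open WeierstrassCurve
open Pool.Agent.Helper29.BL Pool.Agent.Helper42.SG
open Pool.Agent.Helper60.T3 (WL zd IP)
open Pool.Agent.Helper92.TG
open Pool.Agent.Helper60.TGX
open Pool.Agent.Helper3.TG (TH)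

namespace D

open Pool.Agent.Helper57.TG.DEGX

theorem degy (hCONT : CONT) (hEXTS : EXTS) (K : Type) [Field K] [CharZero K] (W W' : Affine K)
    (hW : W.IsElliptic) (hW' : W'.IsElliptic) (A B Cc E : K[X]) (hB : B ≠ 0)
    (hWr : derivative A * B - A * derivative B ≠ 0) (f : Homo W W')
    (hGF : ∀ (F : Type) [Field F] [DecidableEq F] [Algebra K F] (P : (WL F W).Point),
      Transcendental K (xc P) → Val A B Cc E P (f.f F P)) : B.natDegree < A.natDegree := by
  have := hW
  have := hW'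
  by_contra hdeg
  push Not at hdeg
  let _ : DecidableEq (AlgebraicClosure (RatFunc K)) := Classical.decEq _
  obtain ⟨x₀, hx₀⟩ : ∃ x₀ : AlgebraicClosure (RatFunc K), Transcendental K x₀ :=
    ⟨algebraMap (RatFunc K) _ RatFunc.X,
      (transcendental_algebraMap_iff (algebraMap (RatFunc K) _).injective).2
        RatFunc.transcendental_X⟩
  have : CharZero (AlgebraicClosure (RatFunc K)) :=
    charZero_of_injective_algebraMap (algebraMap K _).injective
  obtain ⟨P₀, hP₀, hP₀x⟩ := ex_pt (WL (AlgebraicClosure (RatFunc K)) W) x₀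
  obtain ⟨Ω, _, _, _, j, V, Q, hV, hQV, hQt, hPQ⟩ := hEXTS K W hW (AlgebraicClosure (RatFunc K))
  have hji : Function.Injective j := j.toRingHom.injective
  have : CharZero Ω := charZero_of_injective_algebraMap (algebraMap K Ω).injective
  obtain ⟨k, hk⟩ : ∃ k : IntermediateField K Ω, k = j.fieldRange := ⟨_, rfl⟩
  have hjk : ∀ c, j c ∈ k := fun c => hk ▸ ⟨c, rfl⟩
  have hkV : ∀ z ∈ k, z ∈ V := by
    intro z hz
    rw [hk] at hz
    obtain ⟨c, rfl⟩ := hz
    exact hV c
  have hKV : ∀ c : K, algebraMap K Ω c ∈ V := fun c => hkV _ (k.algebraMap_mem c)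
  have hmk : ∀ R, IP (k : Set Ω) (mp (W := W) j R) := by
    intro R
    refine Or.inr ⟨?_, ?_⟩
    · rw [xc_mp]; exact hjk _
    · rw [ps_mp]; exact hjk _
  obtain ⟨P, hP⟩ : ∃ P : (WL Ω W).Point, P = mp j P₀ := ⟨_, rfl⟩
  have hx : xc P = j x₀ := by rw [hP, xc_mp, hP₀x]
  have hxt : Transcendental K (xc P) := by
    rw [hx]
    exact fun h => hx₀ ((isAlgebraic_algHom_iff j hji).1 h)
  have hP0 : P ≠ 0 := by
    intro h
    rw [h] at hxt
    exact hxt isAlgebraic_zero
  obtain ⟨g1, g2, -⟩ := hGF Ω P hxt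
  obtain ⟨g3, g4, -⟩ := hGF Ω Q hQt
  obtain ⟨g5, g6, -⟩ := hGF Ω (P + Q) (by rw [hP]; exact hPQ P₀)
  have hfP : f.f Ω P = mp j (f.f (AlgebraicClosure (RatFunc K)) P₀) := by
    rw [hP]; exact f.nat _ Ω j P₀
  have hfa : f.f Ω P + f.f Ω Q = f.f Ω (P + Q) := ((f.f Ω).map_add P Q).symm
  obtain ⟨-, c1, -⟩ := hCONT K Ω W V k hkV P Q hP0 (hP ▸ hmk P₀) hQV
  have th := Pool.Agent.Helper25.TG.THX.t Pool.Agent.Helper12.SGB.th_ELAW Ω (WL Ω W') (f.f Ω P)
    (f.f Ω Q) two_ne_zero g1 g3 (by rw [hfa]; exact g5)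
  rw [hfa] at th
  have hu : ∃ u₀, xc (f.f Ω P) = j u₀ := ⟨_, by rw [hfP, xc_mp]⟩
  have hxk : xc P ∈ k := hx ▸ hjk _
  generalize xc (f.f Ω P) = u at *
  generalize xc (f.f Ω Q) = s' at *
  generalize xc (f.f Ω (P + Q)) = T' at *
  generalize xc (P + Q) = T at *
  generalize xc Q = s at *
  generalize xc P = x at *
  obtain ⟨u₀, hu⟩ := hu
  have huk : u ∈ k := hu ▸ hjk u₀
  have huV : u ∈ V := hkV u huk
  have hxV : x ∈ V := hkV x hxk
  -- the constant
  obtain ⟨c, hc⟩ : ∃ c : K, c = A.coeff B.natDegree / B.leadingCoeff := ⟨_, rfl⟩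
  have hlc : B.leadingCoeff ≠ 0 := leadingCoeff_ne_zero.2 hB
  have hR : (A - C c * B).degree < B.degree := by
    rw [degree_eq_natDegree hB, degree_lt_iff_coeff_zero]
    intro m hm
    rcases Nat.eq_or_lt_of_le hm with h | h
    · rw [← h, coeff_sub, coeff_C_mul, hc, coeff_natDegree, div_mul_cancel₀ _ hlc, sub_self]
    · rw [coeff_sub, coeff_C_mul, coeff_eq_zero_of_natDegree_lt h,
        coeff_eq_zero_of_natDegree_lt (lt_of_le_of_lt hdeg h), mul_zero, sub_zero]
  have hs1 : V.valuation (s' - algebraMap K Ω c) < 1 := by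
    have e1 : (s' - algebraMap K Ω c) * aeval s B = aeval s (A - C c * B) := by
      rw [map_sub, map_mul, aeval_C, ← g4]
      ring
    have e2 := v_pol_lt V hKV hQV (A - C c * B) B hB hR
    rw [← e1, map_mul] at e2
    by_contra h
    rw [not_lt] at h
    exact absurd e2 (not_lt.2 (le_mul_of_one_le_left' h))
  have hsV : s' ∈ V := by
    have : s' = (s' - algebraMap K Ω c) + algebraMap K Ω c := by ring
    rw [this]
    exact add_mem ((V.valuation_le_one_iff _).1 hs1.le) (hKV c)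
  have hTV : T ∈ V := by
    have : T = (T - x) + x := by ring
    rw [this]
    exact add_mem ((V.valuation_le_one_iff _).1 c1.le) hxV
  have hBx0 : aeval x B ≠ 0 := fun h => hxt ⟨B, hB, h⟩
  have hBxk : aeval x B ∈ k := by
    have h : ∃ x', x = j x' := by
      rw [hk] at hxk
      obtain ⟨c, hc⟩ := hxk
      exact ⟨c, hc.symm⟩
    obtain ⟨x', hx'⟩ := h
    rw [hx', aeval_algHom_apply]
    exact hjk _
  have hBx1 : V.valuation (aeval x B) = 1 :=
    v_one V (hkV _ hBxk) (hkV _ (inv_mem hBxk)) hBx0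
  have hBT1 : V.valuation (aeval T B) = 1 := by
    rw [← hBx1]
    refine V.valuation.map_eq_of_sub_lt ?_
    rw [hBx1]
    exact v_congr V hKV hTV hxV c1 B
  have hT1 : V.valuation (T' - u) < 1 := by
    have e1 : (T' - u) * aeval T B =
        (aeval T A - aeval x A) + (aeval T B - aeval x B) * (-u) := by
      rw [← g6, ← g2]
      ring
    have e2 : V.valuation ((T' - u) * aeval T B) < 1 := by
      rw [e1]
      exact lt_add V (v_congr V hKV hTV hxV c1 A)
        (lt_mul V (v_congr V hKV hTV hxV c1 B) (neg_mem huV))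
    rwa [map_mul, hBT1, mul_one] at e2
  have hT'V : T' ∈ V := by
    have : T' = (T' - u) + u := by ring
    rw [this]
    exact add_mem ((V.valuation_le_one_iff _).1 hT1.le) huV
  -- the relation
  have h2V : (2 : Ω) ∈ V := by
    have : (2 : Ω) = 1 + 1 := by norm_num
    rw [this]
    exact add_mem (one_mem _) (one_mem _)
  have hb2 : (WL Ω W').b₂ ∈ V := by rw [WeierstrassCurve.map_b₂]; exact hKV _
  have hb4 : (WL Ω W').b₄ ∈ V := by rw [WeierstrassCurve.map_b₄]; exact hKV _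
  have hb6 : (WL Ω W').b₆ ∈ V := by rw [WeierstrassCurve.map_b₆]; exact hKV _
  have hcV := hKV c
  have hlt : V.valuation (aeval u (qq W' c)) < 1 := by
    rw [qq_eval]
    have e := th_diff (WL Ω W') u s' T' (algebraMap K Ω c)
    rw [th, zero_sub] at e
    rw [← Valuation.map_neg, e]
    refine lt_add V (lt_mul V hs1 ?_) (lt_mul V hT1 ?_)
    · repeat first | assumption | apply sub_mem | apply add_mem | apply mul_mem | apply pow_mem
    · repeat first | assumption | apply sub_mem | apply add_mem | apply mul_mem | apply pow_mem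
  have hqk : aeval u (qq W' c) ∈ k := by
    rw [hu, aeval_algHom_apply]
    exact hjk _
  have hq0 := zero_of_lt V hkV hqk hlt
  obtain ⟨c', hc'⟩ := const_of_alg hxt hB g2 ⟨qq W' c, qq_ne W' c, hq0⟩
  refine hWr ?_
  rw [hc', derivative_mul, derivative_C]
  ring


end D

namespace R

open Pool.Agent.Helper44.TG.RATA

noncomputable section

theorem raty (hC : CONT) (hE : EXTS) (K : Type) [Field K] [CharZero K] (W W' : Affine K)
    (hW : W.IsElliptic) (hW' : W'.IsElliptic) (A B Cc E : K[X])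
    (hdeg : B.natDegree < A.natDegree) (f : Homo W W')
    (hGF : ∀ (F : Type) [Field F] [DecidableEq F] [Algebra K F] (P : (WL F W).Point),
      Transcendental K (xc P) → Val A B Cc E P (f.f F P)) (F : Type) [Field F] [DecidableEq F]
    [Algebra K F] (P : (WL F W).Point) (hP : P ≠ 0) (hBP : aeval (xc P) B ≠ 0) :
    f.f F P ≠ 0 ∧ xc (f.f F P) * aeval (xc P) B = aeval (xc P) A := by
  classical
  have := hW
  have := hW'
  obtain ⟨Ω, i1, i2, i3, j, V, Q, hj, hQ, hQt, hgen⟩ := hE K W hW F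
  obtain ⟨P', hP'⟩ : ∃ P' : (WL Ω W).Point, P' = mp j P := ⟨_, rfl⟩
  have hK : ∀ c : K, algebraMap K Ω c ∈ V := by
    intro c
    rw [← j.commutes]
    exact hj _
  have hkV : ∀ z ∈ j.fieldRange, z ∈ V := by
    rintro z ⟨c, rfl⟩
    exact hj c
  have hk0 : ∀ z : V, (z : Ω) ∈ j.fieldRange → res V z = 0 → (z : Ω) = 0 := by
    intro z hz h0
    by_contra hne
    have h1 : (z : Ω)⁻¹ ∈ V := hkV _ (inv_mem hz)
    have h2 : z * ⟨(z : Ω)⁻¹, h1⟩ = 1 := by
      apply Subtype.ext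
      push_cast
      exact mul_inv_cancel₀ hne
    have h3 := congrArg (res V) h2
    rw [map_mul, h0, zero_mul, map_one] at h3
    exact zero_ne_one h3
  have hinj : Function.Injective (mp j : (WL F W).Point → (WL Ω W).Point) :=
    Affine.Point.map_injective j
  have hinj' : Function.Injective (mp j : (WL F W').Point → (WL Ω W').Point) :=
    Affine.Point.map_injective j
  have hmp0 : mp j (0 : (WL F W).Point) = 0 := map_zero _
  have hmp0' : mp j (0 : (WL F W').Point) = 0 := map_zero _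
  have hP'0 : P' ≠ 0 := by
    rw [hP', ← hmp0]
    exact fun h => hP (hinj h)
  have hIP : ∀ R : (WL F W).Point, IP (j.fieldRange : Set Ω) (mp j R) := by
    intro R
    right
    rw [xc_mp, ps_mp]
    exact ⟨⟨_, rfl⟩, ⟨_, rfl⟩⟩
  have hIP' : ∀ R : (WL F W').Point, IP (j.fieldRange : Set Ω) (mp j R) := by
    intro R
    right
    rw [xc_mp, ps_mp]
    exact ⟨⟨_, rfl⟩, ⟨_, rfl⟩⟩
  have hmem : ∀ c : F, j c ∈ j.fieldRange := fun c => ⟨c, rfl⟩
  -- the close point
  obtain ⟨hne1, hx1, -⟩ := hC K Ω W V j.fieldRange hkV P' Q hP'0 (hP' ▸ hIP P) hQ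
  have hgP : Transcendental K (xc (P' + Q)) := by
    rw [hP']
    exact hgen P
  obtain ⟨hr0, hr1, -⟩ := hGF Ω (P' + Q) hgP
  obtain ⟨-, hq1, -⟩ := hGF Ω Q hQt
  have hs' : xc (f.f Ω Q) ∉ V := pole V hK A B hdeg (xc Q) _ hQ hq1
  have hfP : f.f Ω P' = mp j (f.f F P) := by
    rw [hP']
    exact f.nat F Ω j P
  have hadd : f.f Ω (P' + Q) = f.f Ω P' + f.f Ω Q := map_add _ _ _
  have hxP : xc P' = j (xc P) := by
    rw [hP']
    exact xc_mp j P
  obtain ⟨x, hx⟩ : ∃ x : V, (x : Ω) = xc P' := ⟨⟨xc P', by rw [hxP]; exact hj _⟩, rfl⟩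
  rw [← hx] at hx1
  obtain ⟨T, hT⟩ : ∃ T : V, (T : Ω) = xc (P' + Q) := ⟨⟨_, mem_of_close V _ x hx1⟩, rfl⟩
  rw [← hT] at hx1 hr1
  have hTx : res V T = res V x := res_eq V _ _ hx1
  have hjB : ∀ q : K[X], aeval (x : Ω) q = j (aeval (xc P) q) := by
    intro q
    rw [hx, hxP, aeval_algHom_apply]
  by_cases h0 : f.f F P = 0
  · have h2 : f.f Ω P' = 0 := by
      rw [hfP, h0, hmp0']
    rw [hadd, h2, zero_add] at hr1
    have hBT : res V (eval₂ (iK V hK) T B) = 0 := by
      by_contra hne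
      have h3 := inv_mem_of_res V _ hne
      rw [coe_pev] at h3
      have h4 : aeval (T : Ω) B ≠ 0 := by
        intro h5
        apply hne
        have h6 : eval₂ (iK V hK) T B = 0 := Subtype.ext ((coe_pev V hK B T).trans h5)
        rw [h6, map_zero]
      apply hs'
      have h7 : xc (f.f Ω Q) = aeval (T : Ω) A * (aeval (T : Ω) B)⁻¹ := by
        rw [← hr1, mul_assoc, mul_inv_cancel₀ h4, mul_one]
      rw [h7, ← coe_pev V hK A T]
      exact mul_mem (Subtype.prop _) h3
    have hBx : res V (eval₂ (iK V hK) x B) = 0 := by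
      rw [← res_pev V hK B T x hTx]
      exact hBT
    have h8 := hk0 _ (by rw [coe_pev, hjB]; exact hmem _) hBx
    rw [coe_pev, hjB, map_eq_zero] at h8
    exact absurd h8 hBP
  · have h2 : f.f Ω P' ≠ 0 := by
      rw [hfP, ← hmp0']
      exact fun h => h0 (hinj' h)
    obtain ⟨-, hx2, -⟩ := hC K Ω W' V j.fieldRange hkV (f.f Ω P') (f.f Ω Q) h2
      (hfP ▸ hIP' (f.f F P)) hs'
    rw [← hadd] at hx2
    have hxR : xc (f.f Ω P') = j (xc (f.f F P)) := by
      rw [hfP]
      exact xc_mp j _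
    have hyV : xc (f.f Ω P') ∈ V := by
      rw [hxR]
      exact hj _
    obtain ⟨y, hy⟩ : ∃ y : V, (y : Ω) = xc (f.f Ω P') := ⟨⟨_, hyV⟩, rfl⟩
    rw [← hy] at hx2
    obtain ⟨Y, hY⟩ : ∃ Y : V, (Y : Ω) = xc (f.f Ω (P' + Q)) := ⟨⟨_, mem_of_close V _ y hx2⟩, rfl⟩
    rw [← hY] at hx2 hr1
    have hYy : res V Y = res V y := res_eq V _ _ hx2
    have e1 : Y * eval₂ (iK V hK) T B = eval₂ (iK V hK) T A := by
      apply Subtype.ext
      push_cast
      rw [coe_pev, coe_pev]
      exact hr1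
    have f1 : res V (y * eval₂ (iK V hK) x B - eval₂ (iK V hK) x A) = 0 := by
      rw [map_sub, map_mul, ← hYy, ← res_pev V hK B T x hTx, ← res_pev V hK A T x hTx, ← map_mul,
        e1, sub_self]
    have g1 := hk0 _ (by
      push_cast
      rw [coe_pev, coe_pev, hjB, hjB, hy, hxR]
      exact sub_mem (mul_mem (hmem _) (hmem _)) (hmem _)) f1
    push_cast at g1
    rw [coe_pev, coe_pev, hjB, hjB, hy, hxR, ← map_mul, ← map_sub, map_eq_zero, sub_eq_zero] at g1
    exact ⟨h0, g1⟩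

end

end R

/-- **C4** -/
theorem th_C4 : S_C4 := by
  intro k _ _ W W' hW hW' A B Cc E hA f hf
  have hdeg := D.degy Pool.Agent.Helper13.TG.CONT.t MainX.th_EXTS k W W' hW hW' A B Cc E hA.hB
    hA.nc f hf
  exact ⟨hdeg, fun F _ _ _ P hP hB => R.raty Pool.Agent.Helper13.TG.CONT.t MainX.th_EXTS k W W'
    hW hW' A B Cc E hdeg f hf F P hP hB⟩

end Pool.Agent.Helper92.TGX
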