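import Pool.Agent.Helper92.TGX.C3
import Pool.Agent.Helper81.TGX.CMPF
import Pool.Agent.Helper45.TGX.FIXG

/-!
# Project TGX (MP_a41896_nt): `S_C3`, unconditional
-/

set_option autoImplicit false

namespace Pool.Agent.Helper92.TGX

open Pool.Agent.Helper60.TGX

/-- `S_C3` without hypotheses -/
theorem th_C3 : S_C3 :=
  c3 Pool.Agent.Helper81.TGX.CMPF.t (Pool.Agent.Helper45.TGX.FIXG.t Pool.Agent.Helper81.TGX.CMPF.t)

end Pool.Agent.Helper92.TGX
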