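import Pool.Agent.Helper92.TGX.GoalsC3
import Pool.Agent.Helper92.TGX.C4

/-!
# Project TGX (MP_a41896_nt): homomorphisms from formulas
-/

set_option autoImplicit false

open Polynomial

namespace Pool.Agent.Helper92.TGX

open WeierstrassCurve
open Pool.Agent.Helper29.BL Pool.Agent.Helper42.SG
open Pool.Agent.Helper60.T3 (WL zd IP)
open Pool.Agent.Helper92.TG (mp)
open Pool.Agent.Helper60.TGX
open Pool.Agent.Helper92.TN (acl)
open Pool.Agent.Helper92.TN.MainI (th_ACLA th_ACLB th_ACLP)
open Pool.Agent.Helper57.TG.DEGX (xc_mp ps_mp ex_pt)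

noncomputable section

/-! ### Generic points -/

theorem tr_fieldRange {K F Ω : Type} [Field K] [Field F] [Field Ω] [Algebra K F] [Algebra K Ω]
    (j : F →ₐ[K] Ω) {s : Ω} (hs : @Transcendental F Ω _ _ j.toRingHom.toAlgebra s) :
    Transcendental j.fieldRange s := by
  let _ := j.toRingHom.toAlgebra
  intro h
  apply hs
  have hf : Function.Surjective (j.toRingHom.codRestrict j.fieldRange fun x => ⟨x, rfl⟩) := by
    rintro ⟨z, x, hx⟩
    exact ⟨x, Subtype.ext hx⟩
  have h1 : IsAlgebraic j.fieldRange (RingHom.id Ω s) := h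
  exact h1.of_ringHom_of_comp_eq (j.toRingHom.codRestrict j.fieldRange fun x => ⟨x, rfl⟩)
    (RingHom.id Ω) hf Function.injective_id (by
      ext x
      rfl)

/-- an extension with a generic point -/
theorem trg (K : Type) [Field K] [CharZero K] (W : Affine K) (hW : W.IsElliptic) (F : Type)
    [Field F] [Algebra K F] : ∃ (Ω : Type) (_ : Field Ω) (_ : DecidableEq Ω)
      (_ : Algebra K Ω) (j : F →ₐ[K] Ω) (e : (WL Ω W).Point), IsAlgClosed Ω ∧
      Transcendental j.fieldRange (xc e) := by
  have := hW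
  let _ : DecidableEq (AlgebraicClosure (RatFunc F)) := Classical.decEq _
  have hs : Transcendental F
      (algebraMap (RatFunc F) (AlgebraicClosure (RatFunc F)) RatFunc.X) := by
    rw [transcendental_algebraMap_iff
      (algebraMap (RatFunc F) (AlgebraicClosure (RatFunc F))).injective]
    exact RatFunc.transcendental_X
  have : CharZero (AlgebraicClosure (RatFunc F)) :=
    charZero_of_injective_algebraMap (algebraMap K _).injective
  obtain ⟨e, -, he⟩ := ex_pt (WL (AlgebraicClosure (RatFunc F)) W)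
    (algebraMap (RatFunc F) (AlgebraicClosure (RatFunc F)) RatFunc.X)
  refine ⟨AlgebraicClosure (RatFunc F), inferInstance, inferInstance, inferInstance,
    IsScalarTower.toAlgHom K F _, e, inferInstance, ?_⟩
  rw [he]
  refine tr_fieldRange _ ?_
  have e1 : (IsScalarTower.toAlgHom K F (AlgebraicClosure (RatFunc F))).toRingHom.toAlgebra =
      (inferInstance : Algebra F (AlgebraicClosure (RatFunc F))) :=
    Algebra.algebra_ext _ _ fun _ => rfl
  rw [e1]
  exact hs

theorem mem_acl {K Ω : Type} [Field K] [Field Ω] [Algebra K Ω] (L : IntermediateField K Ω)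
    (z : Ω) : z ∈ acl K (L : Set Ω) ↔ IsAlgebraic L z := by
  rw [(th_ACLA K Ω (L : Set Ω) ∅).1, IntermediateField.adjoin_self]

theorem ip_mono {Ω : Type} [Field Ω] {W : Affine Ω} {S T : Set Ω} (h : S ⊆ T) {P : W.Point}
    (hP : IP S P) : IP T P := hP.imp id fun h' => ⟨h h'.1, h h'.2⟩

/-- translation by a rational point -/
theorem trs {K : Type} [Field K] [CharZero K] {W : Affine K} (hW : W.IsElliptic) {Ω : Type}
    [Field Ω] [IsAlgClosed Ω] [DecidableEq Ω] [Algebra K Ω] (L : IntermediateField K Ω)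
    {P e : (WL Ω W).Point} (hP : IP (L : Set Ω) P) (he : Transcendental L (xc e)) :
    Transcendental L (xc (P + e)) := by
  have := hW
  intro h
  have hAC := th_ACLP K Ω W (L : Set Ω)
  have h1 := (hAC (P + e) 0 0).1 ((mem_acl L _).2 h)
  have h2 : IP (acl K (L : Set Ω) : Set Ω) P :=
    ip_mono (fun z hz => (th_ACLA K Ω (L : Set Ω) ∅).2.1 hz) hP
  have h3 := ((hAC (P + e) P 0).2.2 h1 h2).2.1
  rw [add_sub_cancel_left] at h3
  rcases h3 with h3 | h3
  · apply he
    rw [h3]
    exact isAlgebraic_zero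
  · exact he ((mem_acl L _).1 h3.1)

/-- independence -/
theorem ind2 {K Ω : Type} [Field K] [Field Ω] [Algebra K Ω] (L : IntermediateField K Ω)
    {x y : Ω} (hxL : x ∈ L) (hx : Transcendental K x) (hy : Transcendental L y) :
    AlgebraicIndependent K ![x, y] ∧ AlgebraicIndependent K ![y, x] := by
  have h1 : y ∉ acl K ({x} : Set Ω) := by
    intro h
    have h2 := (th_ACLA K Ω ({x} : Set Ω) (L : Set Ω)).2.2.1
      (Set.singleton_subset_iff.2 hxL) h
    exact hy ((mem_acl L _).1 h2)
  have h0 : x ∉ acl K (∅ : Set Ω) := by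
    rw [(th_ACLA K Ω ∅ ∅).1]
    intro h
    rw [IntermediateField.adjoin_empty] at h
    exact hx (h.restrictScalars K)
  have h2 : x ∉ acl K ({y} : Set Ω) := by
    intro h
    have h3 := (th_ACLA K Ω ∅ ∅).2.2.2.2.1 x y (by rwa [insert_empty_eq]) h0
    rw [insert_empty_eq] at h3
    exact h1 h3
  have i1 : (![x, y] : Fin 2 → Ω) '' {j | j ≠ 0} = {y} := by
    ext z
    simp only [Set.mem_image, Set.mem_ofPred_eq, Set.mem_singleton_iff]
    constructor
    · rintro ⟨j, hj, rfl⟩
      fin_cases j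
      · exact absurd rfl hj
      · rfl
    · rintro rfl
      exact ⟨1, one_ne_zero, rfl⟩
  have i2 : (![x, y] : Fin 2 → Ω) '' {j | j ≠ 1} = {x} := by
    ext z
    simp only [Set.mem_image, Set.mem_ofPred_eq, Set.mem_singleton_iff]
    constructor
    · rintro ⟨j, hj, rfl⟩
      fin_cases j
      · rfl
      · exact absurd rfl hj
    · rintro rfl
      exact ⟨0, zero_ne_one, rfl⟩
  have h4 : AlgebraicIndependent K ![x, y] := by
    rw [(th_ACLB K Ω).1]
    intro i
    fin_cases i
    · show x ∉ acl K ((![x, y] : Fin 2 → Ω) '' {j | j ≠ 0})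
      rw [i1]
      exact h2
    · show y ∉ acl K ((![x, y] : Fin 2 → Ω) '' {j | j ≠ 1})
      rw [i2]
      exact h1
  refine ⟨h4, ?_⟩
  have h5 := h4.comp (Equiv.swap (0 : Fin 2) 1) (Equiv.injective _)
  have h6 : (![x, y] : Fin 2 → Ω) ∘ (Equiv.swap (0 : Fin 2) 1) = ![y, x] := by
    funext i
    fin_cases i <;> rfl
  rw [h6] at h5
  exact h5

/-! ### Values of the formula -/

section val

variable {K : Type} [Field K] [CharZero K] {W W' : Affine K} {A B Cc E : K[X]}

theorem pt_ext {F : Type} [Field F] [CharZero F] {V : Affine F} {P Q : V.Point} (hP : P ≠ 0)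
    (hQ : Q ≠ 0) (hx : xc P = xc Q) (hp : ps P = ps Q) : P = Q := by
  rcases P with _ | ⟨x, y, h⟩
  · exact absurd rfl hP
  rcases Q with _ | ⟨x', y', h'⟩
  · exact absurd rfl hQ
  have hx' : x = x' := hx
  subst hx'
  have hp' : 2 * y + V.a₁ * x + V.a₃ = 2 * y' + V.a₁ * x + V.a₃ := hp
  have hy : y = y' := by
    have h2 : (2 : F) ≠ 0 := two_ne_zero
    apply mul_left_cancel₀ h2
    linear_combination hp'
  subst hy
  rfl

theorem val_unique (hB : B ≠ 0) (hE : E ≠ 0) {F : Type} [Field F] [Algebra K F]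
    {P : (WL F W).Point} {R R' : (WL F W').Point} (hP : Transcendental K (xc P))
    (h : Val A B Cc E P R) (h' : Val A B Cc E P R') : R = R' := by
  have : CharZero F := charZero_of_injective_algebraMap (algebraMap K F).injective
  have h1 : aeval (xc P) B ≠ 0 := fun h => hP ⟨B, hB, h⟩
  have h2 : aeval (xc P) E ≠ 0 := fun h => hP ⟨E, hE, h⟩
  exact pt_ext h.1 h'.1 (mul_right_cancel₀ h1 (h.2.1.trans h'.2.1.symm))
    (mul_right_cancel₀ h2 (h.2.2.trans h'.2.2.symm))

omit [CharZero K] in
theorem val_mp {F F' : Type} [Field F] [DecidableEq F] [Algebra K F] [Field F']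
    [DecidableEq F'] [Algebra K F'] (j : F →ₐ[K] F') {P : (WL F W).Point}
    {R : (WL F W').Point} (h : Val A B Cc E P R) : Val A B Cc E (mp j P) (mp j R) := by
  refine ⟨fun h0 => h.1 (Affine.Point.map_injective j (h0.trans (map_zero _).symm)), ?_, ?_⟩
  · rw [xc_mp, xc_mp, aeval_algHom_apply, aeval_algHom_apply, ← map_mul, h.2.1]
  · rw [xc_mp, ps_mp, ps_mp, aeval_algHom_apply, aeval_algHom_apply, ← map_mul, ← map_mul, h.2.2]

omit [CharZero K] in
theorem tr_mp {F F' : Type} [Field F] [DecidableEq F] [Algebra K F] [Field F']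
    [DecidableEq F'] [Algebra K F'] (j : F →ₐ[K] F') {P : (WL F W).Point}
    (h : Transcendental K (xc P)) : Transcendental K (xc (mp j P)) := by
  rw [xc_mp]
  exact fun h' => h ((isAlgebraic_algHom_iff j j.toRingHom.injective).1 h')

omit [CharZero K] in
theorem ip_mp {F F' : Type} [Field F] [DecidableEq F] [Algebra K F] [Field F']
    [DecidableEq F'] [Algebra K F'] (j : F →ₐ[K] F') (P : (WL F W).Point) :
    IP (j.fieldRange : Set F') (mp j P) :=
  Or.inr ⟨by rw [xc_mp]; exact ⟨_, rfl⟩, by rw [ps_mp]; exact ⟨_, rfl⟩⟩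

omit [CharZero K] in
theorem mp_comp {F F₁ F₂ : Type} [Field F] [DecidableEq F] [Algebra K F] [Field F₁]
    [DecidableEq F₁] [Algebra K F₁] [Field F₂] [DecidableEq F₂] [Algebra K F₂] (j : F₁ →ₐ[K] F₂)
    (i : F →ₐ[K] F₁) (P : (WL F W).Point) : mp j (mp i P) = mp (j.comp i) P := by
  cases P <;> rfl

omit [CharZero K] in
theorem mp_inj {F F' : Type} [Field F] [DecidableEq F] [Algebra K F] [Field F']
    [DecidableEq F'] [Algebra K F'] (j : F →ₐ[K] F') {P Q : (WL F W).Point}
    (h : mp j P = mp j Q) : P = Q := Affine.Point.map_injective j h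

omit [CharZero K] in
theorem tr_le {Ω : Type} [Field Ω] [Algebra K Ω] {L₁ L₂ : IntermediateField K Ω} (h : L₁ ≤ L₂)
    {x : Ω} (hx : Transcendental L₂ x) : Transcendental L₁ x := by
  rintro ⟨p, hp, h0⟩
  refine hx ⟨p.map (IntermediateField.inclusion h).toRingHom, ?_, ?_⟩
  · exact (Polynomial.map_ne_zero_iff (IntermediateField.inclusion h).toRingHom.injective).2 hp
  · rw [← h0, aeval_def, aeval_def, eval₂_map]
    rfl

omit [CharZero K] in
theorem tr_base {Ω : Type} [Field Ω] [Algebra K Ω] {L : IntermediateField K Ω}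
    {x : Ω} (hx : Transcendental L x) : Transcendental K x :=
  hx.restrictScalars (algebraMap K L).injective

omit [CharZero K] in
theorem range_comp {F F₁ F₂ : Type} [Field F] [Algebra K F] [Field F₁]
    [Algebra K F₁] [Field F₂] [Algebra K F₂] (j : F₁ →ₐ[K] F₂)
    (i : F →ₐ[K] F₁) : (j.comp i).fieldRange ≤ j.fieldRange := by
  rintro _ ⟨x, rfl⟩
  exact ⟨i x, rfl⟩

/-- a point with coordinates in the smaller field -/
theorem pt_lift {F F' : Type} [Field F] [DecidableEq F] [Algebra K F] [Field F']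
    [DecidableEq F'] [Algebra K F'] (j : F →ₐ[K] F') (T : (WL F' W).Point)
    (hx : xc T ∈ Set.range j) (hp : ps T ∈ Set.range j) : ∃ S : (WL F W).Point, mp j S = T := by
  have : CharZero F := charZero_of_injective_algebraMap (algebraMap K F).injective
  rcases T with _ | ⟨X, Y, h⟩
  · exact ⟨0, rfl⟩
  · obtain ⟨x, hx⟩ := hx
    obtain ⟨p, hp⟩ := hp
    have hx' : j x = X := hx
    have hp' : j p = 2 * Y + (WL F' W).a₁ * X + (WL F' W).a₃ := hp
    have c1 : j (WL F W).a₁ = (WL F' W).a₁ := j.commutes W.a₁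
    have c3 : j (WL F W).a₃ = (WL F' W).a₃ := j.commutes W.a₃
    have h2 : (2 : F) ≠ 0 := two_ne_zero
    have hY : j ((p - (WL F W).a₁ * x - (WL F W).a₃) / 2) = Y := by
      rw [map_div₀, map_sub, map_sub, map_mul, c1, c3, hx', hp', map_ofNat]
      have h2' : (2 : F') ≠ 0 := by
        rw [← map_ofNat j 2]
        exact fun h => h2 (j.toRingHom.injective (h.trans (map_zero j).symm))
      field_simp
      ring
    subst hx' hY
    have h3 : (WL F W).Nonsingular x ((p - (WL F W).a₁ * x - (WL F W).a₃) / 2) := by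
      refine (Affine.map_nonsingular (WL F W) (f := j.toRingHom) j.toRingHom.injective _ _).1 ?_
      have e1 : j.toRingHom.comp (algebraMap K F) = algebraMap K F' := j.comp_algebraMap
      have e : (WL F W).map j.toRingHom = WL F' W := by
        show W.map (j.toRingHom.comp (algebraMap K F)) = W.map (algebraMap K F')
        rw [e1]
      rw [e]
      exact h
    exact ⟨Affine.Point.some _ _ h3, rfl⟩

end val

/-! ### The homomorphism -/

section hom

variable {K : Type} [Field K] [CharZero K] {W W' : Affine K} {A B Cc E : K[X]}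

/-- two generic translations -/
theorem key (hW : W.IsElliptic) (hA : AddF W W' A B Cc E) {M M' : Type} [Field M]
    [DecidableEq M] [Algebra K M] [Field M'] [IsAlgClosed M'] [DecidableEq M'] [Algebra K M']
    (i : M →ₐ[K] M') {P e : (WL M W).Point} {R R' : (WL M W').Point} {e₃ : (WL M' W).Point}
    {T T' : (WL M' W').Point} (h1 : Transcendental K (xc e))
    (h2 : Transcendental K (xc (P + e))) (h3 : Transcendental i.fieldRange (xc e₃))
    (hR : Val A B Cc E e R) (hR' : Val A B Cc E (P + e) R') (hT : Val A B Cc E e₃ T)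
    (hT' : Val A B Cc E (mp i P + e₃) T') : mp i (R' - R) = T' - T := by
  have m1 : xc (mp i e) ∈ i.fieldRange := by
    rw [xc_mp]
    exact ⟨_, rfl⟩
  have m2 : xc (mp i (P + e)) ∈ i.fieldRange := by
    rw [xc_mp]
    exact ⟨_, rfl⟩
  have g : Transcendental i.fieldRange (xc (mp i P + e₃)) := trs hW _ (ip_mp i P) h3
  have a0 : Transcendental K (xc (mp i (P + e) + e₃)) :=
    tr_base (trs hW _ (ip_mp i (P + e)) h3)
  obtain ⟨V, hV⟩ := hA.ex M' (mp i (P + e) + e₃) a0
  have a1 := hA.add M' (mp i (P + e)) e₃ (mp i R') T V (ind2 i.fieldRange m2 (tr_mp i h2) h3).1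
    (val_mp i hR') hT hV
  have e1 : mp i (P + e) + e₃ = (mp i P + e₃) + mp i e := by
    have : mp i (P + e) = mp i P + mp i e := map_add (Affine.Point.map (W' := W) i) P e
    rw [this, add_right_comm]
  rw [e1] at hV
  have a2 := hA.add M' (mp i P + e₃) (mp i e) T' (mp i R) V (ind2 i.fieldRange m1 (tr_mp i h1) g).2
    hT' (val_mp i hR) hV
  have e2 : mp i (R' - R) = mp i R' - mp i R := map_sub (Affine.Point.map (W' := W') i) R' R
  rw [e2]
  rw [a1] at a2
  rw [sub_eq_sub_iff_add_eq_add, add_comm T' (mp i R)] at *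
  rw [a2, add_comm]

variable (W' A B Cc E) in
/-- `T` is the value at `P` -/
def HR {F : Type} [Field F] [DecidableEq F] [Algebra K F] (P : (WL F W).Point)
    (T : (WL F W').Point) : Prop :=
  ∀ (M : Type) [Field M] [IsAlgClosed M] [DecidableEq M] [Algebra K M] (j : F →ₐ[K] M)
    (e : (WL M W).Point) (R R' : (WL M W').Point), Transcendental j.fieldRange (xc e) →
    Val A B Cc E e R → Val A B Cc E (mp j P + e) R' → R' = mp j T + R

theorem hr_unique (hW : W.IsElliptic) (hA : AddF W W' A B Cc E) {F : Type} [Field F]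
    [DecidableEq F] [Algebra K F] {P : (WL F W).Point} {T T' : (WL F W').Point}
    (h : HR W' A B Cc E P T) (h' : HR W' A B Cc E P T') : T = T' := by
  obtain ⟨M, _, _, _, j, e, _, he⟩ := trg K W hW F
  obtain ⟨R, hR⟩ := hA.ex M e (tr_base he)
  obtain ⟨R', hR'⟩ := hA.ex M (mp j P + e) (tr_base (trs hW _ (ip_mp j P) he))
  have e1 := h M j e R R' he hR hR'
  rw [h' M j e R R' he hR hR'] at e1
  exact (mp_inj j (add_right_cancel e1)).symm

theorem hr_add (hW : W.IsElliptic) (hA : AddF W W' A B Cc E) {F : Type} [Field F]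
    [DecidableEq F] [Algebra K F] {P P' : (WL F W).Point} {T T' : (WL F W').Point}
    (h : HR W' A B Cc E P T) (h' : HR W' A B Cc E P' T') :
    HR W' A B Cc E (P + P') (T + T') := by
  intro M _ _ _ _ j e R R' he hR hR'
  have g := trs hW _ (ip_mp j P') he
  obtain ⟨R₁, hR₁⟩ := hA.ex M (mp j P' + e) (tr_base g)
  have e1 := h' M j e R R₁ he hR hR₁
  have e2 : mp j (P + P') + e = mp j P + (mp j P' + e) := by
    have : mp j (P + P') = mp j P + mp j P' := map_add (Affine.Point.map (W' := W) j) P P'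
    rw [this, add_assoc]
  rw [e2] at hR'
  have e3 := h M j (mp j P' + e) R₁ R' g hR₁ hR'
  have e4 : mp j (T + T') = mp j T + mp j T' := map_add (Affine.Point.map (W' := W') j) T T'
  rw [e3, e1, e4, add_assoc]

omit [CharZero K] in
theorem hr_nat {F F₁ : Type} [Field F] [DecidableEq F] [Algebra K F] [Field F₁]
    [DecidableEq F₁] [Algebra K F₁] (i : F →ₐ[K] F₁) {P : (WL F W).Point}
    {T : (WL F W').Point} (h : HR W' A B Cc E P T) : HR W' A B Cc E (mp i P) (mp i T) := by
  intro M _ _ _ _ j e R R' he hR hR'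
  rw [mp_comp] at hR' ⊢
  exact h M (j.comp i) e R R' (tr_le (range_comp j i) he) hR hR'

theorem hr_gen (hA : AddF W W' A B Cc E) {F : Type} [Field F]
    [DecidableEq F] [Algebra K F] {P : (WL F W).Point} {T : (WL F W').Point}
    (hP : Transcendental K (xc P)) (h : Val A B Cc E P T) : HR W' A B Cc E P T := by
  intro M _ _ _ _ j e R R' he hR hR'
  have m1 : xc (mp j P) ∈ j.fieldRange := by
    rw [xc_mp]
    exact ⟨_, rfl⟩
  exact hA.add M (mp j P) e (mp j T) R R' (ind2 j.fieldRange m1 (tr_mp j hP) he).1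
    (val_mp j h) hR hR'

/-- existence of the value -/
theorem hr_ex (hCM : CMPF) (hFX : FIXG) (hW : W.IsElliptic) (hA : AddF W W' A B Cc E)
    (F : Type) [Field F] [DecidableEq F] [Algebra K F] (P : (WL F W).Point) :
    ∃ T : (WL F W').Point, HR W' A B Cc E P T := by
  classical
  have : CharZero F := charZero_of_injective_algebraMap (algebraMap K F).injective
  obtain ⟨M, _, _, _, j, e, _, he⟩ := trg K W hW F
  have g := trs hW _ (ip_mp j P) he
  obtain ⟨R, hR⟩ := hA.ex M e (tr_base he)
  obtain ⟨R', hR'⟩ := hA.ex M (mp j P + e) (tr_base g)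
  -- the difference is the same under all embeddings
  have hinv : ∀ (N : Type) [Field N] [DecidableEq N] [Algebra K N] (M₂ : Type) [Field M₂]
      [DecidableEq M₂] [Algebra K M₂] (j₂ : F →ₐ[K] M₂) (e₂ : (WL M₂ W).Point)
      (R₂ R₂' : (WL M₂ W').Point) (τ : M →ₐ[K] N) (τ₂ : M₂ →ₐ[K] N), τ.comp j = τ₂.comp j₂ →
      Transcendental K (xc e₂) → Transcendental K (xc (mp j₂ P + e₂)) →
      Val A B Cc E e₂ R₂ → Val A B Cc E (mp j₂ P + e₂) R₂' →
      mp τ (R' - R) = mp τ₂ (R₂' - R₂) := by
    intro N _ _ _ M₂ _ _ _ j₂ e₂ R₂ R₂' τ τ₂ hτ t1 t2 v1 v2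
    obtain ⟨N', _, _, _, i, e₃, _, h3⟩ := trg K W hW N
    obtain ⟨T, hT⟩ := hA.ex N' e₃ (tr_base h3)
    have hc : mp (i.comp τ) (mp j P) = mp (i.comp τ₂) (mp j₂ P) := by
      rw [mp_comp, mp_comp, AlgHom.comp_assoc, AlgHom.comp_assoc, hτ]
    have h4 : Transcendental i.fieldRange (xc (mp (i.comp τ) (mp j P) + e₃)) := by
      rw [← mp_comp]
      exact trs hW _ (ip_mp i _) h3
    obtain ⟨T', hT'⟩ := hA.ex N' (mp (i.comp τ) (mp j P) + e₃) (tr_base h4)
    have k1 := key hW hA (i.comp τ) (tr_base he) (tr_base g) (tr_le (range_comp i τ) h3) hR hR' hT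
      hT'
    rw [hc] at hT'
    have k2 := key hW hA (i.comp τ₂) t1 t2 (tr_le (range_comp i τ₂) h3) v1 v2 hT hT'
    rw [← mp_comp] at k1 k2
    exact mp_inj i (k1.trans k2.symm)
  -- it has coordinates in `F`
  have hfix : ∀ z : M, (∀ (N : Type) [Field N] [DecidableEq N] [Algebra K N] (τ τ' : M →ₐ[K] N),
      τ.comp j = τ'.comp j → τ z = τ' z) → z ∈ Set.range j := by
    intro z hz
    letI := j.toRingHom.toAlgebra
    have h := hFX F M z ?_
    · exact h
    intro N _ _ _ τ τ'
    letI : Algebra K N := ((algebraMap F N).comp (algebraMap K F)).toAlgebra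
    let τ₁ : M →ₐ[K] N :=
      { τ.toRingHom with
        commutes' := fun r => by
          have h1 := τ.commutes (algebraMap K F r)
          have h2 : algebraMap F M (algebraMap K F r) = algebraMap K M r := j.commutes r
          rw [h2] at h1
          exact h1 }
    let τ₂ : M →ₐ[K] N :=
      { τ'.toRingHom with
        commutes' := fun r => by
          have h1 := τ'.commutes (algebraMap K F r)
          have h2 : algebraMap F M (algebraMap K F r) = algebraMap K M r := j.commutes r
          rw [h2] at h1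
          exact h1 }
    refine hz N τ₁ τ₂ ?_
    ext x
    exact (τ.commutes x).trans (τ'.commutes x).symm
  obtain ⟨T, hT⟩ : ∃ T : (WL F W').Point, mp j T = R' - R := by
    refine pt_lift j (R' - R) (hfix _ ?_) (hfix _ ?_)
    · intro N _ _ _ τ τ' hτ
      rw [← xc_mp, ← xc_mp]
      exact congrArg xc (hinv N M j e R R' τ τ' hτ (tr_base he) (tr_base g) hR hR')
    · intro N _ _ _ τ τ' hτ
      rw [← ps_mp, ← ps_mp]
      exact congrArg ps (hinv N M j e R R' τ τ' hτ (tr_base he) (tr_base g) hR hR')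
  refine ⟨T, ?_⟩
  intro M₂ _ _ _ _ j₂ e₂ R₂ R₂' he₂ hR₂ hR₂'
  -- a common extension
  obtain ⟨N, _, _, _, τ, τ₂, hτ⟩ : ∃ (N : Type) (_ : Field N) (_ : DecidableEq N) (_ : Algebra K N)
      (τ : M →ₐ[K] N) (τ₂ : M₂ →ₐ[K] N), τ.comp j = τ₂.comp j₂ := by
    letI := j.toRingHom.toAlgebra
    letI := j₂.toRingHom.toAlgebra
    obtain ⟨N, _, _, _, ⟨τ⟩, ⟨τ₂⟩⟩ := hCM F M M₂
    letI : Algebra K N := ((algebraMap F N).comp (algebraMap K F)).toAlgebra
    refine ⟨N, inferInstance, Classical.decEq _, inferInstance,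
      { τ.toRingHom with
        commutes' := fun r => by
          have h1 := τ.commutes (algebraMap K F r)
          have h2 : algebraMap F M (algebraMap K F r) = algebraMap K M r := j.commutes r
          rw [h2] at h1
          exact h1 },
      { τ₂.toRingHom with
        commutes' := fun r => by
          have h1 := τ₂.commutes (algebraMap K F r)
          have h2 : algebraMap F M₂ (algebraMap K F r) = algebraMap K M₂ r := j₂.commutes r
          rw [h2] at h1
          exact h1 }, ?_⟩
    ext x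
    exact (τ.commutes x).trans (τ₂.commutes x).symm
  have h1 := hinv N M₂ j₂ e₂ R₂ R₂' τ τ₂ hτ (tr_base he₂)
    (tr_base (trs hW _ (ip_mp j₂ P) he₂)) hR₂ hR₂'
  rw [← hT, mp_comp, hτ, ← mp_comp] at h1
  have h2 := mp_inj τ₂ h1
  rw [h2, sub_add_cancel]

end hom

/-- **C3** -/
theorem c3 (hCM : CMPF) (hFX : FIXG) : S_C3 := by
  intro K _ _ W W' hW hW' A B Cc E hA
  have hex := fun (F : Type) [Field F] [DecidableEq F] [Algebra K F] (P : (WL F W).Point) =>
    hr_ex hCM hFX hW hA F P
  refine ⟨⟨fun F _ _ _ => AddMonoidHom.mk' (fun P => Classical.choose (hex F P)) ?_, ?_⟩, ?_⟩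
  · intro P P'
    exact hr_unique hW hA (Classical.choose_spec (hex F (P + P')))
      (hr_add hW hA (Classical.choose_spec (hex F P)) (Classical.choose_spec (hex F P')))
  · intro F F' _ _ _ _ _ _ j P
    exact hr_unique hW hA (Classical.choose_spec (hex F' (mp j P)))
      (hr_nat j (Classical.choose_spec (hex F P)))
  · intro F _ _ _ P hP
    obtain ⟨R, hR⟩ := hA.ex F P hP
    have h := hr_unique hW hA (Classical.choose_spec (hex F P)) (hr_gen hA hP hR)
    show Val A B Cc E P (Classical.choose (hex F P))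
    rw [h]
    exact hR

end

end Pool.Agent.Helper92.TGX
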