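import Pool.Agent.Helper60.TGX.Defs

/-!
# Project TGX (MP_a41896_nt), S_C3: homomorphisms from formulas; goals

`T ∈ W'(F)` is the value at `P ∈ W(F)` if `r(P + e) = T + r(e)` for all `e` which are generic over `F`, where `r` is given by the formula.
-/

set_option autoImplicit false

open Polynomial

namespace Pool.Agent.Helper92.TGX

open WeierstrassCurve
open Pool.Agent.Helper29.BL Pool.Agent.Helper42.SG
open Pool.Agent.Helper60.T3 (WL zd IP)
open Pool.Agent.Helper92.TG (mp)
open Pool.Agent.Helper60.TGX

/-- **CMPF**: two extensions of a field are contained in an algebraically closed field. No hypotheses.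
PROOF. `F ⊗[K] F'` is not trivial (`F'` is free over `K`; Mathlib: `Module.FaithfullyFlat`, or `Algebra.TensorProduct` nontrivial instance); `m` a maximal ideal (`Ideal.exists_maximal`), `M := AlgebraicClosure ((F ⊗[K] F') ⧸ m)`, maps `Algebra.TensorProduct.includeLeft`, `includeRight`, `Ideal.Quotient.mkₐ`. -/
def CMPF : Prop :=
  ∀ (K F F' : Type) [Field K] [Field F] [Field F'] [Algebra K F] [Algebra K F'],
    ∃ (M : Type) (_ : Field M) (_ : Algebra K M), IsAlgClosed M ∧ Nonempty (F →ₐ[K] M) ∧
      Nonempty (F' →ₐ[K] M)

/-- **FIXG**: an element which has the same image under all embeddings over `F` is in `F`. Hypothesis allowed: CMPF.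
PROOF. Suppose `z ∉ F`. There is an element `z' ∈ M`, `z' ≠ z`, and an embedding `ι : E → M` over `F`, `E := F(z) = IntermediateField.adjoin F {z}`, with `ι z = z'`: if `z` is transcendental over `F` let `z' = z + 1` (transcendental too; `E` is the field of rational functions in `z`: `IntermediateField.adjoin` of a transcendental element, e.g. `AlgebraicIndependent.aevalEquivField` / `RatFunc` / `IntermediateField.algHomAdjoin..`); if `z` is algebraic (integral), its minimal polynomial over `F` is separable (characteristic `0`) of degree `≥ 2` (`z ∉ F`), so it has a root `z' ≠ z` in `M`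
(`M` algebraically closed; `card_rootSet_eq_natDegree`), and `ι` is `IntermediateField.algHomAdjoinIntegralEquiv` / `adjoin.liftSingleton`-type. CMPF over the field `E` for `M` with the inclusion `E ⊆ M` and `M` with the algebra structure `ι.toRingHom.toAlgebra` (a type synonym or `@`): `N`, `i₁, i₂ : M → N` with `i₁ w = i₂ (ι w)` for `w ∈ E`. Both are embeddings over `F` for the algebra structure of `N` over `F` through `E`. `i₁ z = i₂ z' ≠ i₂ z`: contradiction. -/
def FIXG : Prop :=
  ∀ (F M : Type) [Field F] [CharZero F] [Field M] [IsAlgClosed M] [Algebra F M] (z : M),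
    (∀ (N : Type) [Field N] [IsAlgClosed N] [Algebra F N] (τ τ' : M →ₐ[F] N), τ z = τ' z) →
      z ∈ Set.range (algebraMap F M)

end Pool.Agent.Helper92.TGX
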